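import Pool.Agent.W172.MK.Stm

/-!
# Independence of the innovations
-/

set_option autoImplicit false

open MeasureTheory ProbabilityTheory Filter Topology

namespace Pool.Agent.W428.MK

open Pool.Agent.W172.MK

theorem indep : P_INDEP := by
  intro S _ μ _ a G hG φ hφ ⟨C, hC⟩
  classical
  set ν : Measure (S × unitInterval) := μ.prod (volume : Measure unitInterval) with hν
  let R : Om S → ({m : ℤ // m ≤ a} → S × unitInterval) := fun ω i => ω i.1
  let Y : Om S → S × unitInterval := fun ω => ω (a + 1)
  have hR : Measurable R := measurable_pi_lambda _ fun i => measurable_pi_apply _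
  have hY : Measurable Y := measurable_pi_apply _
  have hbase : base S a = MeasurableSpace.comap R MeasurableSpace.pi := by
    unfold base MeasurableSpace.pi
    rw [MeasurableSpace.comap_iSup, iSup_subtype]
    simp only [MeasurableSpace.comap_comp]
    rfl
  have hind : iIndepFun (fun (i : ℤ) (ω : Om S) => ω i) (PM μ) :=
    iIndepFun_infinitePi (X := fun (_ : ℤ) (x : S × unitInterval) => x) fun _ => measurable_id
  have hRY : IndepFun R Y (PM μ) := by
    have h1 := indep_iSup_of_disjoint
      (m := fun i : ℤ => MeasurableSpace.comap (fun ω : Om S => ω i) inferInstance)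
      (fun i => (measurable_pi_apply i).comap_le) hind (S := {m : ℤ | m ≤ a}) (T := {a + 1})
      (by
        rw [Set.disjoint_singleton_right]
        simp)
    rw [IndepFun_iff_Indep]
    have h2 : (⨆ i ∈ {m : ℤ | m ≤ a},
        MeasurableSpace.comap (fun ω : Om S => ω i) inferInstance) = base S a := rfl
    rw [h2, hbase] at h1
    simpa using h1
  rw [hbase] at hG
  obtain ⟨G', hG', rfl⟩ := hG
  have hmap := (indepFun_iff_map_prod_eq_prod_map_map hR.aemeasurable hY.aemeasurable).1 hRY
  have hYν : (PM μ).map Y = ν := (measurePreserving_eval_infinitePi _ (a + 1)).map_eq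
  rw [hYν] at hmap
  have : IsProbabilityMeasure ((PM μ).map R) := Measure.isProbabilityMeasure_map hR.aemeasurable
  set ψ : ({m : ℤ // m ≤ a} → S × unitInterval) × (S × unitInterval) → ℝ := fun q =>
    G'.indicator (fun r => φ (r ⟨a, le_rfl⟩).1 q.2) q.1 with hψ
  have hψ' : ψ = (Prod.fst ⁻¹' G').indicator (fun q => φ (q.1 ⟨a, le_rfl⟩).1 q.2) := by
    funext q
    rw [hψ]
    by_cases hq : q.1 ∈ G'
    · rw [Set.indicator_of_mem (show q ∈ Prod.fst ⁻¹' G' from hq)]
      simp only [Set.indicator_of_mem hq]
    · rw [Set.indicator_of_notMem (show q ∉ Prod.fst ⁻¹' G' from hq)]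
      simp only [Set.indicator_of_notMem hq]
  have hψm : Measurable ψ := by
    rw [hψ']
    refine Measurable.indicator ?_ (measurable_fst hG')
    exact hφ.comp (((measurable_pi_apply _).comp measurable_fst).fst.prodMk measurable_snd)
  have hC0 : 0 ≤ C := by
    obtain ⟨s⟩ : Nonempty S := μ.nonempty_of_neZero
    exact (abs_nonneg _).trans (hC s (s, 0))
  have hψb : ∀ q, ‖ψ q‖ ≤ C := by
    intro q
    rw [hψ]
    by_cases hq : q.1 ∈ G'
    · simp only [Set.indicator_of_mem hq]
      exact hC _ _
    · simp only [Set.indicator_of_notMem hq, norm_zero]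
      exact hC0
  have hint : Integrable ψ (((PM μ).map R).prod ν) :=
    Integrable.of_bound hψm.aestronglyMeasurable C (Filter.Eventually.of_forall hψb)
  have hGm : MeasurableSet (R ⁻¹' G') := hR hG'
  calc ∫ ω in R ⁻¹' G', φ (ω a).1 (ω (a + 1)) ∂(PM μ)
      = ∫ ω, ψ (R ω, Y ω) ∂(PM μ) := by
        rw [← integral_indicator hGm]
        rfl
    _ = ∫ q, ψ q ∂((PM μ).map (fun ω => (R ω, Y ω))) := by
        rw [integral_map (hR.prodMk hY).aemeasurable hψm.aestronglyMeasurable]
    _ = ∫ r, ∫ w, ψ (r, w) ∂ν ∂((PM μ).map R) := by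
        rw [hmap, integral_prod _ hint]
    _ = ∫ ω, ∫ w, ψ (R ω, w) ∂ν ∂(PM μ) := by
        rw [integral_map hR.aemeasurable]
        exact hψm.stronglyMeasurable.integral_prod_right'.aestronglyMeasurable
    _ = ∫ ω in R ⁻¹' G', (∫ w, φ (ω a).1 w ∂ν) ∂(PM μ) := by
        rw [← integral_indicator hGm]
        congr 1
        funext ω
        by_cases hω : R ω ∈ G'
        · rw [Set.indicator_of_mem (show ω ∈ R ⁻¹' G' from hω)]
          simp only [hψ, Set.indicator_of_mem hω]
          rfl
        · rw [Set.indicator_of_notMem (show ω ∉ R ⁻¹' G' from hω)]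
          simp only [hψ, Set.indicator_of_notMem hω, integral_zero]

end Pool.Agent.W428.MK
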